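import Pool.Agent.Helper42.CV.Defs
import Pool.Agent.Helper21.TS.Line

/-!
# CV, block C2: the linear algebra of a curve with many multiplicative relations
-/

set_option autoImplicit false

namespace Pool.Agent.CV

open Module MvPolynomial Pool.Agent.TRI
open Pool.Agent.Helper21.TS (Ext1 der_zero_of_algebraic log_der)

section

theorem int_li21 {K : Type*} [Field K] [CharZero K] {ρ q : ℕ} (a : Fin ρ → Fin q → ℤ) (ha : LinearIndependent ℤ a) :
    LinearIndependent K fun s => fun i => (a s i : K) := by
  have h1 : LinearIndependent ℤ fun s => fun i => (a s i : ℚ) := by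
    have h := ha.map' ((Algebra.linearMap ℤ ℚ).compLeft (Fin q)) (by
      rw [LinearMap.ker_eq_bot]
      intro x y hxy
      funext i
      have := congrFun hxy i
      simpa using this)
    exact h
  have h2 : LinearIndependent ℚ fun s => fun i => (a s i : ℚ) := (LinearIndependent.iff_fractionRing ℤ ℚ).1 h1
  rw [Fintype.linearIndependent_iff] at h2 ⊢
  intro g hg s
  rw [← Module.forall_dual_apply_eq_zero_iff ℚ (g s)]
  intro φ
  refine h2 (fun s => φ (g s)) ?_ s
  funext i
  have h3 := congrFun hg i
  simp only [Finset.sum_apply, Pi.smul_apply, smul_eq_mul, Pi.zero_apply] at h3 ⊢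
  have h4 := congrArg φ h3
  rw [map_sum, map_zero] at h4
  rw [← h4]
  refine Finset.sum_congr rfl fun s _ => ?_
  have h5 : g s * (a s i : K) = (a s i : ℚ) • g s := by
    rw [Algebra.smul_def, mul_comm]
    congr 1
    simp
  rw [h5, map_smul, smul_eq_mul, mul_comm]

variable {k₀ F : Type*} [Field k₀] [CharZero k₀] [Field F] [Algebra k₀ F]

/-- more derivations than the transcendence degree are dependent on `y` -/
theorem many_der {N n : ℕ} (y : Fin (N + 1) → F)
    (htr : Algebra.trdeg k₀ (IntermediateField.adjoin k₀ (Set.range y)) ≤ n) {J : Type*} [Fintype J] (hJ : n < Fintype.card J)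
    (D : J → Derivation k₀ F F) : ∃ u : J → F, u ≠ 0 ∧ ∀ c, ∑ j, u j * D j (y c) = 0 := by
  classical
  obtain ⟨E, hE⟩ : ∃ E, E = IntermediateField.adjoin k₀ (Set.range y) := ⟨_, rfl⟩
  rw [← hE] at htr
  obtain ⟨ι, t, ht⟩ := exists_isTranscendenceBasis' (R := k₀) E
  have hcard := ht.cardinalMk_eq_trdeg
  have hle : Cardinal.mk ι ≤ n := hcard.le.trans htr
  have hfin : Finite ι := by
    rw [← Cardinal.lt_aleph0_iff_finite]
    exact lt_of_le_of_lt hle (by exact_mod_cast Cardinal.natCast_lt_aleph0 (n := n))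
  have := Fintype.ofFinite ι
  have hcard2 : Fintype.card ι ≤ n := by
    rw [Cardinal.mk_fintype] at hle
    exact_mod_cast hle
  let f : (J → F) →ₗ[F] (ι → F) := LinearMap.pi fun i => ∑ j, (D j (t i : F)) • LinearMap.proj j
  have hf : ∀ u i, f u i = ∑ j, u j * D j (t i : F) := by
    intro u i
    simp only [f, LinearMap.pi_apply, LinearMap.sum_apply, LinearMap.smul_apply, LinearMap.proj_apply, smul_eq_mul, mul_comm]
  have hker : LinearMap.ker f ≠ ⊥ := LinearMap.ker_ne_bot_of_finrank_lt (by
    rw [Module.finrank_fintype_fun_eq_card, Module.finrank_fintype_fun_eq_card]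
    omega)
  obtain ⟨u, hu, hu0⟩ := (Submodule.ne_bot_iff _).1 hker
  refine ⟨u, hu0, fun c => ?_⟩
  have hyc : y c ∈ E := by
    rw [hE]
    exact IntermediateField.subset_adjoin _ _ (Set.mem_range_self c)
  let D' : Derivation k₀ E F := ∑ j, u j • ((D j).compAlgebraMap E)
  have hD' : ∀ x : E, D' x = ∑ j, u j * D j (x : F) := by
    intro x
    have h1 := congrFun (map_sum (Derivation.coeFnAddMonoidHom (R := k₀) (A := E) (M := F))
      (fun j => u j • ((D j).compAlgebraMap E)) Finset.univ) x
    rw [Finset.sum_apply] at h1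
    exact h1
  have h2 := der_zero_of_algebraic D' (Set.range t) (by
    rintro _ ⟨i, rfl⟩
    rw [hD', ← hf, LinearMap.mem_ker.1 hu]
    rfl) ⟨y c, hyc⟩ (ht.isAlgebraic_field.isAlgebraic _)
  rw [hD'] at h2
  exact h2

variable {M : Type*} [Field M] [Algebra k₀ M] [Algebra M F] [IsScalarTower k₀ M F]

theorem core (hext : Ext1 k₀ M F) {N q n m ρ : ℕ} (l : Fin q → Fin (N + 1) → M)
    (hl : ∀ p : Fin q × Fin (N + 1), ∃ D : Derivation k₀ M M, ∀ p' : Fin q × Fin (N + 1), D (l p'.1 p'.2) = if p' = p then 1 else 0)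
    (y : Fin (N + 1) → F) (htr : Algebra.trdeg k₀ (IntermediateField.adjoin k₀ (Set.range y)) ≤ n)
    (η : Fin m → Derivation M F F) (hη : LinearIndependent F fun b => fun c => η b (y c)) (hly : ∀ i, lv (l i) y ≠ 0)
    (a : Fin ρ → Fin q → ℤ) (ha : LinearIndependent ℤ a) (hw : ∀ s, ∃ τ : M, wv l y (a s) = algebraMap M F τ) :
    (ρ + m) * finrank M (Submodule.span M (Set.range y)) ≤ ρ + n * finrank M (Submodule.span M (Set.range y)) := by
  classical
  have hcF : CharZero F := charZero_of_injective_algebraMap (algebraMap k₀ F).injective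
  obtain ⟨Λ, hΛ⟩ : ∃ Λ : Fin q → F, Λ = fun i => lv (l i) y := ⟨_, rfl⟩
  have hΛ0 : ∀ i, Λ i ≠ 0 := by
    intro i
    rw [hΛ]
    exact hly i
  have hΛd : ∀ (D : Derivation k₀ F F) i, D (Λ i) = ∑ c, D (algebraMap M F (l i c)) * y c + ∑ c, algebraMap M F (l i c) * D (y c) := by
    intro D i
    rw [hΛ]
    simp only [lv, map_sum, D.leibniz, smul_eq_mul]
    rw [← Finset.sum_add_distrib]
    refine Finset.sum_congr rfl fun c _ => ?_
    ring
  choose τ hτ using hw
  have hτ' : ∀ s, ∏ i, (Λ i) ^ a s i = algebraMap M F (τ s) := by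
    intro s
    rw [← hτ s, hΛ]
    rfl
  have hτ0 : ∀ s, algebraMap M F (τ s) ≠ 0 := by
    intro s
    rw [← hτ' s]
    exact Finset.prod_ne_zero_iff.2 fun i _ => zpow_ne_zero _ (hΛ0 i)
  -- the functionals
  let θ : (Fin (N + 1) → F) →ₗ[F] (Fin ρ → F) :=
    LinearMap.pi fun s => ∑ i, ((a s i : F) / Λ i) • ∑ c, algebraMap M F (l i c) • LinearMap.proj c
  have hθdef : ∀ v s, θ v s = ∑ i, a s i * ((∑ c, algebraMap M F (l i c) * v c) / Λ i) := by
    intro v s
    simp only [θ, LinearMap.pi_apply, LinearMap.sum_apply, LinearMap.smul_apply, LinearMap.proj_apply, smul_eq_mul]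
    refine Finset.sum_congr rfl fun i _ => ?_
    ring
  have hrel : ∀ s, ∀ D : Derivation k₀ F F,
      D (algebraMap M F (τ s)) = algebraMap M F (τ s) * (∑ i, a s i * ((∑ c, D (algebraMap M F (l i c)) * y c) / Λ i) +
        θ (fun c => D (y c)) s) := by
    intro s D
    rw [← hτ' s, log_der Finset.univ D Λ hΛ0 (a s), hθdef, ← Finset.sum_add_distrib]
    congr 1
    refine Finset.sum_congr rfl fun i _ => ?_
    rw [hΛd]
    ring
  have hθη : ∀ b, θ (fun c => η b (y c)) = 0 := by
    intro b
    funext s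
    have h1 := hrel s ((η b).restrictScalars k₀)
    have h2 : ∀ m : M, ((η b).restrictScalars k₀) (algebraMap M F m) = 0 := fun m => (η b).map_algebraMap m
    simp only [h2, zero_mul, Finset.sum_const_zero, zero_div, mul_zero, zero_add] at h1
    exact (mul_eq_zero.1 h1.symm).resolve_left (hτ0 s)
  -- the derivations
  choose D₀ hD₀ using hl
  choose D hD using fun p => hext (D₀ p)
  have hθD : ∀ (p : Fin q × Fin (N + 1)) s,
      θ (fun c => D p (y c)) s = algebraMap M F (D₀ p (τ s) / τ s) - a s p.1 * (y p.2 / Λ p.1) := by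
    intro p s
    have h1 := hrel s (D p)
    have h2 : ∑ i, (a s i : F) * ((∑ c, D p (algebraMap M F (l i c)) * y c) / Λ i) = a s p.1 * (y p.2 / Λ p.1) := by
      rw [Finset.sum_eq_single p.1]
      · congr 2
        rw [Finset.sum_eq_single p.2]
        · rw [hD, hD₀ p (p.1, p.2), if_pos rfl, map_one, one_mul]
        · intro c _ hc
          rw [hD, hD₀ p (p.1, c), if_neg (fun h => hc (congrArg Prod.snd h)), map_zero, zero_mul]
        · intro h
          exact absurd (Finset.mem_univ _) h
      · intro i _ hi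
        have : ∑ c, D p (algebraMap M F (l i c)) * y c = 0 := by
          refine Finset.sum_eq_zero fun c _ => ?_
          rw [hD, hD₀ p (i, c), if_neg (fun h => hi (congrArg Prod.fst h)), map_zero, zero_mul]
        rw [this, zero_div, mul_zero]
      · intro h
        exact absurd (Finset.mem_univ _) h
    rw [h2, hD] at h1
    have h3 := hτ0 s
    rw [map_div₀, h1]
    field_simp
    ring
  -- the space of the tangent vectors
  let DD : (Fin q × Fin (N + 1)) ⊕ Fin m → Derivation k₀ F F := Sum.elim D fun b => (η b).restrictScalars k₀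
  let vv : (Fin q × Fin (N + 1)) ⊕ Fin m → Fin (N + 1) → F := fun j c => DD j (y c)
  obtain ⟨T, hT⟩ : ∃ T : Submodule F (Fin (N + 1) → F), T = Submodule.span F (Set.range vv) := ⟨_, rfl⟩
  have hTn : finrank F T ≤ n := by
    obtain ⟨J, e, he, hsp, hli⟩ := exists_linearIndependent' F vv
    have : Finite J := Finite.of_injective e he
    have := Fintype.ofFinite J
    have h1 : finrank F T = Fintype.card J := by
      rw [hT, ← hsp]
      exact finrank_span_eq_card hli
    rw [h1]
    by_contra hcon
    push Not at hcon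
    obtain ⟨u, hu0, hu⟩ := many_der y htr hcon fun j => DD (e j)
    apply hu0
    funext j
    refine Fintype.linearIndependent_iff.1 hli u ?_ j
    funext c
    rw [Finset.sum_apply]
    exact hu c
  obtain ⟨W, hW⟩ : ∃ W : Submodule F (Fin ρ → F), W = T.map θ := ⟨_, rfl⟩
  have hWm : finrank F W + m ≤ n := by
    have h1 := LinearMap.finrank_range_add_finrank_ker (θ.domRestrict T)
    have h2 : LinearMap.range (θ.domRestrict T) = W := by
      rw [hW, LinearMap.range_domRestrict]
    rw [h2] at h1
    have h3 : m ≤ finrank F (LinearMap.ker (θ.domRestrict T)) := by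
      have hmem : ∀ b, (fun c => η b (y c)) ∈ T := by
        intro b
        rw [hT]
        exact Submodule.subset_span ⟨Sum.inr b, rfl⟩
      let g : Fin m → LinearMap.ker (θ.domRestrict T) := fun b => ⟨⟨fun c => η b (y c), hmem b⟩, by
        rw [LinearMap.mem_ker, LinearMap.domRestrict_apply]
        exact hθη b⟩
      have hg : LinearIndependent F g := by
        refine LinearIndependent.of_comp (T.subtype.comp (LinearMap.ker (θ.domRestrict T)).subtype) ?_
        exact hη
      have := hg.fintype_card_le_finrank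
      rwa [Fintype.card_fin] at this
    omega
  have hWD : ∀ p, θ (fun c => D p (y c)) ∈ W := by
    intro p
    rw [hW]
    refine Submodule.mem_map_of_mem ?_
    rw [hT]
    exact Submodule.subset_span ⟨Sum.inl p, rfl⟩
  -- the columns of `a`
  obtain ⟨α, hα⟩ : ∃ α : Fin q → Fin ρ → F, α = fun i s => (a s i : F) := ⟨_, rfl⟩
  have hαtop : Submodule.span F (Set.range α) = ⊤ := by
    by_contra hcon
    obtain ⟨f, hf0, hf⟩ := Submodule.exists_le_ker_of_lt_top _ (lt_top_iff_ne_top.2 hcon)
    have h1 := Fintype.linearIndependent_iff.1 (int_li21 (K := F) a ha) (fun s => f (Pi.single s 1)) (by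
      funext i
      rw [Finset.sum_apply, Pi.zero_apply]
      have h2 : f (α i) = 0 := LinearMap.mem_ker.1 (hf (Submodule.subset_span (Set.mem_range_self i)))
      rw [LinearMap.pi_apply_eq_sum_univ] at h2
      rw [← h2]
      refine Finset.sum_congr rfl fun s _ => ?_
      rw [Pi.smul_apply, smul_eq_mul, smul_eq_mul, hα, mul_comm]
      congr 2
      funext j
      rw [Pi.single_apply]
      simp only [eq_comm])
    apply hf0
    refine LinearMap.pi_ext' fun s => ?_
    refine LinearMap.ext_ring ?_
    simpa using h1 s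
  -- a basis of the quotient
  obtain ⟨κ, i₀, hi₀, hsp, hli⟩ := exists_linearIndependent' F (fun i => W.mkQ (α i))
  have : Finite κ := Finite.of_injective i₀ hi₀
  have := Fintype.ofFinite κ
  have hspan : ⊤ ≤ Submodule.span F (Set.range ((fun i => W.mkQ (α i)) ∘ i₀)) := by
    rw [hsp]
    have h1 : Set.range (fun i => W.mkQ (α i)) = W.mkQ '' Set.range α := by
      rw [← Set.range_comp]
      rfl
    rw [h1, Submodule.span_image, hαtop, Submodule.map_top, Submodule.range_mkQ]
  let B := Basis.mk hli hspan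
  have hcard : finrank F W + Fintype.card κ = ρ := by
    have h1 := Submodule.finrank_quotient_add_finrank W
    rw [Module.finrank_eq_card_basis B, Module.finrank_fintype_fun_eq_card, Fintype.card_fin] at h1
    omega
  let π : (Fin ρ → F) →ₗ[F] (κ → F) := B.equivFun.toLinearMap ∘ₗ W.mkQ
  have hπW : ∀ w ∈ W, π w = 0 := by
    intro w hw
    have h1 : W.mkQ w = 0 := by
      rw [Submodule.mkQ_apply, Submodule.Quotient.mk_eq_zero]
      exact hw
    simp only [π, LinearMap.comp_apply, h1, map_zero]
  have hπα : ∀ j, π (α (i₀ j)) = Pi.single j 1 := by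
    intro j
    have h1 : W.mkQ (α (i₀ j)) = B j := by
      simp only [B, Basis.mk_apply]
      rfl
    have h2 : π (α (i₀ j)) = B.equivFun (B j) := by
      rw [← h1]
      rfl
    rw [h2]
    funext j'
    rw [Basis.equivFun_self, Pi.single_apply]
    simp only [eq_comm]
  let Ψ : (Fin ρ → M) →ₗ[M] (κ → F) := (π.restrictScalars M) ∘ₗ ((Algebra.linearMap M F).compLeft (Fin ρ))
  have hΨ : ∀ j c, Pi.single j (y c / Λ (i₀ j)) ∈ LinearMap.range Ψ := by
    intro j c
    refine ⟨fun s => D₀ (i₀ j, c) (τ s) / τ s, ?_⟩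
    have h1 : ((Algebra.linearMap M F).compLeft (Fin ρ)) (fun s => D₀ (i₀ j, c) (τ s) / τ s) =
        θ (fun c' => D (i₀ j, c) (y c')) + (y c / Λ (i₀ j)) • α (i₀ j) := by
      funext s
      rw [Pi.add_apply, Pi.smul_apply, hθD, hα, smul_eq_mul]
      show algebraMap M F (D₀ (i₀ j, c) (τ s) / τ s) = _
      ring
    have h2 : Ψ (fun s => D₀ (i₀ j, c) (τ s) / τ s) =
        π (((Algebra.linearMap M F).compLeft (Fin ρ)) (fun s => D₀ (i₀ j, c) (τ s) / τ s)) := rfl
    rw [h2, h1, map_add, hπW _ (hWD _), zero_add, map_smul, hπα]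
    funext j'
    rw [Pi.smul_apply, smul_eq_mul]
    by_cases h : j' = j
    · subst h
      rw [Pi.single_eq_same, Pi.single_eq_same, mul_one]
    · rw [Pi.single_eq_of_ne h, Pi.single_eq_of_ne h, mul_zero]
  -- an independent family
  obtain ⟨ι, c₀, hc₀, hspy, hliy⟩ := exists_linearIndependent' M y
  have : Finite ι := Finite.of_injective c₀ hc₀
  have := Fintype.ofFinite ι
  have he : finrank M (Submodule.span M (Set.range y)) = Fintype.card ι := by
    rw [← hspy]
    exact finrank_span_eq_card hliy
  have hlast : LinearIndependent M (fun p : κ × ι => (⟨Pi.single p.1 (y (c₀ p.2) / Λ (i₀ p.1)), hΨ p.1 (c₀ p.2)⟩ :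
      LinearMap.range Ψ)) := by
    refine LinearIndependent.of_comp (LinearMap.range Ψ).subtype ?_
    rw [Fintype.linearIndependent_iff]
    rintro g hg ⟨j, t⟩
    have h1 := congrFun hg j
    rw [Finset.sum_apply, Fintype.sum_prod_type, Finset.sum_eq_single j] at h1
    · have h2 : ∑ t, g (j, t) • y (c₀ t) = 0 := by
        have h3 : ∑ t, g (j, t) • y (c₀ t) = (∑ t, g (j, t) • (y (c₀ t) / Λ (i₀ j))) * Λ (i₀ j) := by
          rw [Finset.sum_mul]
          refine Finset.sum_congr rfl fun t _ => ?_
          rw [smul_mul_assoc, div_mul_cancel₀ _ (hΛ0 _)]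
        rw [h3]
        have h4 : ∑ t, g (j, t) • (y (c₀ t) / Λ (i₀ j)) = 0 := by
          refine Eq.trans ?_ h1
          refine Finset.sum_congr rfl fun t _ => ?_
          simp
        rw [h4, zero_mul]
      exact Fintype.linearIndependent_iff.1 hliy (fun t => g (j, t)) h2 t
    · intro j' _ hj'
      refine Finset.sum_eq_zero fun t _ => ?_
      simp [Pi.single_eq_of_ne hj'.symm]
    · intro h
      exact absurd (Finset.mem_univ _) h
  have h5 := hlast.fintype_card_le_finrank
  rw [Fintype.card_prod] at h5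
  have h6 : finrank M (LinearMap.range Ψ) ≤ ρ := by
    refine (LinearMap.finrank_range_le Ψ).trans ?_
    rw [Module.finrank_fintype_fun_eq_card, Fintype.card_fin]
  rw [he]
  have h7 : ρ + m ≤ Fintype.card κ + n := by omega
  calc (ρ + m) * Fintype.card ι ≤ (Fintype.card κ + n) * Fintype.card ι := Nat.mul_le_mul_right _ h7
    _ = Fintype.card κ * Fintype.card ι + n * Fintype.card ι := by ring
    _ ≤ ρ + n * Fintype.card ι := Nat.add_le_add_right (h5.trans h6) _

end

end Pool.Agent.CV
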