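import Pool.Agent.Helper42.CV.Field
import Pool.Agent.Helper97.CV.C1
import Pool.Agent.Helper31.TRI.Ultra
import Pool.Agent.Helper77.TRI.Lim
import Pool.Agent.Helper17.CV.IntLi

/-!
# CV, block C7: from generic linear forms to linear forms outside a hypersurface
-/

set_option autoImplicit false

namespace Pool.Agent.CV

open Module MvPolynomial Pool.Agent.TRI

universe u

/-- independent coordinates -/
theorem many21 {κ V : Type*} [Field κ] [AddCommGroup V] [Module κ V] {n m : ℕ} (ξ : Fin n → V)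
    (h : m ≤ finrank κ (Submodule.span κ (Set.range ξ))) : ∃ g : Fin m → Fin n, LinearIndependent κ fun i => ξ (g i) := by
  obtain ⟨ι, a, ha, h1, h2⟩ := exists_linearIndependent' κ ξ
  have hfin : Finite ι := Finite.of_injective a ha
  have := Fintype.ofFinite ι
  have h3 : finrank κ (Submodule.span κ (Set.range (ξ ∘ a))) = Fintype.card ι := finrank_span_eq_card h2
  rw [h1] at h3
  rw [h3] at h
  obtain ⟨e⟩ : Nonempty (Fin m ↪ ι) := by
    apply Function.Embedding.nonempty_of_card_le
    rw [Fintype.card_fin]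
    exact h
  exact ⟨fun i => a (e i), h2.comp e e.injective⟩

section

variable {k₀ : Type u} [Field k₀] {J : Type u} {E : J → Type u} [∀ j, Field (E j)] [∀ j, Algebra k₀ (E j)]

/-- the limit of derivations -/
theorem lim_der21 (U : Ultrafilter J) (κ : ∀ j, IntermediateField k₀ (E j)) (η : ∀ j, Derivation (κ j) (E j) (E j))
    {F : Type u} [Field F] [Algebra k₀ F] (κ' : IntermediateField k₀ F) (π : (∀ j, E j) →ₐ[k₀] F) (hsur : Function.Surjective π)
    (hπ0 : ∀ x, π x = 0 ↔ ∀ᶠ j in (U : Filter J), x j = 0) (hπκ : ∀ x, π x ∈ κ' ↔ ∀ᶠ j in (U : Filter J), x j ∈ κ j) :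
    ∃ D : Derivation κ' F F, ∀ x, D (π x) = π fun j => η j (x j) := by
  classical
  have hwd : ∀ x y, π x = π y → (π fun j => η j (x j)) = π fun j => η j (y j) := by
    intro x y h
    have h1 : π (x - y) = 0 := by rw [map_sub, h, sub_self]
    rw [hπ0] at h1
    have h2 : π ((fun j => η j (x j)) - fun j => η j (y j)) = 0 := by
      rw [hπ0]
      filter_upwards [h1] with j hj
      rw [Pi.sub_apply] at hj ⊢
      rw [← map_sub, hj, map_zero]
    rw [map_sub, sub_eq_zero] at h2
    exact h2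
  choose s hs using hsur
  let L : F →ₗ[κ'] F :=
    { toFun := fun y => π fun j => η j (s y j)
      map_add' := by
        intro y z
        rw [← map_add]
        have h1 := hwd (s (y + z)) (s y + s z) (by rw [map_add, hs, hs, hs])
        rw [h1]
        congr 1
        funext j
        rw [Pi.add_apply, Pi.add_apply, map_add]
      map_smul' := by
        intro c y
        have h1 := hwd (s (c • y)) (s (c : F) * s y) (by
          rw [map_mul, hs, hs, hs]
          rfl)
        rw [h1, RingHom.id_apply]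
        have h2 : c • (π fun j => η j (s y j)) = π (s (c : F) * fun j => η j (s y j)) := by
          rw [map_mul, hs]
          rfl
        rw [h2, ← sub_eq_zero, ← map_sub, hπ0]
        have h3 : π (s (c : F)) ∈ κ' := by
          rw [hs]
          exact c.2
        rw [hπκ] at h3
        filter_upwards [h3] with j hj
        rw [Pi.sub_apply, Pi.mul_apply, Pi.mul_apply, sub_eq_zero]
        have h4 : s (c : F) j * s y j = (⟨s (c : F) j, hj⟩ : κ j) • s y j := rfl
        rw [h4, (η j).map_smul]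
        rfl }
  have hL : ∀ x, L (π x) = π fun j => η j (x j) := fun x => hwd _ _ (hs _)
  refine ⟨Derivation.mk' L ?_, fun x => hL x⟩
  intro y z
  rw [← hs y, ← hs z, ← map_mul, hL, hL, hL, smul_eq_mul, smul_eq_mul, ← map_mul, ← map_mul, ← map_add]
  congr 1
  funext j
  rw [Pi.mul_apply, (η j).leibniz]
  rfl

end

theorem cv_phi {k₀ : Type u} [Field k₀] [CharZero k₀] {N n : ℕ} {I : Ideal (MvPolynomial (Fin (N + 1)) k₀)} (hX : Vty n I) {q ρ e : ℕ}
    (he : 0 < e) (hnum : n * (e + 1) ≤ e * (ρ + 1)) : ∃ Φ : MvPolynomial (Fin q × Fin (N + 1)) k₀, Φ ≠ 0 ∧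
    ∀ (E : Type u) [Field E] [Algebra k₀ E] (κ : IntermediateField k₀ E) (η : Derivation κ E E), (∀ x, η x = 0 → x ∈ κ) →
      ∀ l : Fin q → Fin (N + 1) → κ, aeval (fun p : Fin q × Fin (N + 1) => l p.1 p.2) Φ ≠ 0 → ∀ ξ : Fin (N + 1) → E,
      (∃ j, ξ j = 1) → OnX I ξ → (∀ i, lv (l i) ξ ≠ 0) → e + 1 ≤ finrank κ (Submodule.span κ (Set.range ξ)) →
      ∀ a : Fin ρ → Fin q → ℤ, LinearIndependent ℤ a → (∀ s, wv l ξ (a s) ∈ κ) → False := by
  classical
  by_contra hcon
  have h : ∀ Φ : {Φ : MvPolynomial (Fin q × Fin (N + 1)) k₀ // Φ ≠ 0}, ∃ (E : Type u) (_ : Field E) (_ : Algebra k₀ E)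
      (κ : IntermediateField k₀ E) (η : Derivation κ E E) (l : Fin q → Fin (N + 1) → κ) (ξ : Fin (N + 1) → E)
      (a : Fin ρ → Fin q → ℤ), (∀ x, η x = 0 → x ∈ κ) ∧
      aeval (fun p : Fin q × Fin (N + 1) => l p.1 p.2) Φ.1 ≠ 0 ∧ (∃ j, ξ j = 1) ∧ OnX I ξ ∧
      (∀ i, lv (l i) ξ ≠ 0) ∧ LinearIndependent ℤ a ∧ (∀ s, wv l ξ (a s) ∈ κ) ∧
      ∃ g : Fin (e + 1) → Fin (N + 1), LinearIndependent κ fun i => ξ (g i) := by
    intro Φ
    by_contra h1
    apply hcon
    refine ⟨Φ.1, Φ.2, fun E _ _ κ η hη l hΦ ξ k1 k3 k4 k5 a k6 k7 => ?_⟩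
    exact h1 ⟨E, inferInstance, inferInstance, κ, η, l, ξ, a, hη, hΦ, k1, k3, k4, k6, k7, many21 ξ k5⟩
  choose E hF hA κ η l ξ a hη hΦ k1 k3 k4 k5 k6 k7 using h
  obtain ⟨U, F, iF, iA, κ', π, hsur, hπ0, hπκ, hlin, -⟩ := ultra E κ (fun j p => (l j p.1 p.2 : E j)) (by
    intro j h
    apply hΦ j
    have h1 : aeval (fun p : Fin q × Fin (N + 1) => ((l j p.1 p.2 : κ j) : E j)) j.1 =
        algebraMap (κ j) (E j) (aeval (fun p : Fin q × Fin (N + 1) => l j p.1 p.2) j.1) := by
      rw [← aeval_algebraMap_apply]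
      rfl
    rw [h1] at h
    exact (map_eq_zero _).1 h)
  -- the limits
  obtain ⟨l', hl'⟩ : ∃ l' : Fin q → Fin (N + 1) → κ', ∀ i c, ((l' i c : κ') : F) = π fun j => (l j i c : E j) :=
    ⟨fun i c => ⟨π fun j => (l j i c : E j), (hπκ _).2 (Filter.Eventually.of_forall fun j => (l j i c).2)⟩, fun i c => rfl⟩
  obtain ⟨y, hy⟩ : ∃ y : Fin (N + 1) → F, ∀ c, y c = π fun j => ξ j c := ⟨_, fun c => rfl⟩
  have y1 : ∃ c, y c = 1 := by
    obtain ⟨c, hc⟩ := uexists77 U (fun j c => ξ j c = 1) k1
    refine ⟨c, ?_⟩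
    have h1 : π ((fun j => ξ j c) - 1) = 0 := (hπ0 _).2 (by
      filter_upwards [hc] with j hj
      rw [Pi.sub_apply, hj, Pi.one_apply, sub_self])
    rw [map_sub, map_one, sub_eq_zero] at h1
    rw [hy, h1]
  have y3 : OnX I y := by
    intro g hg
    have h1 : aeval y g = π (aeval (fun c => fun j => ξ j c) g) := by
      rw [← AlgHom.comp_apply, comp_aeval]
      congr 2
      funext c
      exact hy c
    have h2 : aeval (fun c => fun j => ξ j c) g = (0 : ∀ j, E j) := by
      funext j
      have h3 : (Pi.evalAlgHom k₀ E j) (aeval (fun c => fun j => ξ j c) g) = aeval (ξ j) g := by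
        rw [← AlgHom.comp_apply, comp_aeval]
        rfl
      have h4 := k3 j g hg
      rw [← h3] at h4
      exact h4
    rw [h1, h2, map_zero]
  have hlv : ∀ i, lv (l' i) y = π fun j => lv (l j i) (ξ j) := by
    intro i
    have h1 : (fun j => lv (l j i) (ξ j)) = ∑ c, (fun j => (l j i c : E j)) * fun j => ξ j c := by
      funext j
      rw [Finset.sum_apply]
      rfl
    rw [h1, map_sum]
    unfold lv
    refine Finset.sum_congr rfl fun c _ => ?_
    rw [map_mul, ← hy, ← hl']
    rfl
  have y4 : ∀ i, lv (l' i) y ≠ 0 := by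
    intro i h0
    rw [hlv, hπ0] at h0
    obtain ⟨j, hj⟩ := h0.exists
    exact k4 j i hj
  have hlin' : AlgebraicIndependent k₀ fun p : Fin q × Fin (N + 1) => l' p.1 p.2 := by
    rw [← AlgHom.algebraicIndependent_iff κ'.val κ'.val.injective]
    have : (κ'.val ∘ fun p : Fin q × Fin (N + 1) => l' p.1 p.2) = fun p => π fun j => (l j p.1 p.2 : E j) := by
      funext p
      exact hl' p.1 p.2
    rw [this]
    exact hlin
  -- the derivation
  obtain ⟨D, hD⟩ := lim_der21 U κ η κ' π hsur hπ0 hπκ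
  have hDker : ∀ x, D x = 0 → ∃ c, algebraMap κ' F c = x := by
    intro x hx
    obtain ⟨z, rfl⟩ := hsur x
    rw [hD, hπ0] at hx
    refine ⟨⟨π z, (hπκ z).2 ?_⟩, rfl⟩
    filter_upwards [hx] with j hj
    exact hη j _ hj
  -- the relations
  have hint : ∀ j (z : ℤ), ((z : ℤ) : E j) ∈ κ j := fun j z => (κ j).intCast_mem z
  obtain ⟨α, hα⟩ : ∃ α : Fin ρ → Fin q → κ', ∀ s i, ((α s i : κ') : F) = π fun j => ((a j s i : ℤ) : E j) :=
    ⟨fun s i => ⟨π fun j => ((a j s i : ℤ) : E j), (hπκ _).2 (Filter.Eventually.of_forall fun j => hint j _)⟩, fun s i => rfl⟩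
  have hαli : LinearIndependent κ' α := by
    rw [Fintype.linearIndependent_iff]
    intro c hc s0
    choose x hx using fun s => hsur (c s : F)
    have h1 : ∀ᶠ j in (U : Filter _), ∀ i, ∑ s, x s j * ((a j s i : ℤ) : E j) = 0 := by
      rw [Filter.eventually_all]
      intro i
      have h2 : π (∑ s, x s * fun j => ((a j s i : ℤ) : E j)) = 0 := by
        rw [map_sum]
        have h3 := congrArg (algebraMap κ' F) (congrFun hc i)
        rw [Finset.sum_apply, map_sum, Pi.zero_apply, map_zero] at h3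
        rw [← h3]
        refine Finset.sum_congr rfl fun s _ => ?_
        rw [map_mul, hx, ← hα, Pi.smul_apply, smul_eq_mul, map_mul]
        rfl
      rw [hπ0] at h2
      filter_upwards [h2] with j hj
      rw [← hj, Finset.sum_apply]
      rfl
    have h4 : ∀ᶠ j in (U : Filter _), x s0 j = 0 := by
      filter_upwards [h1] with j hj
      have : CharZero (E j) := charZero_of_injective_algebraMap (algebraMap k₀ (E j)).injective
      refine Fintype.linearIndependent_iff.1 (int_li (K := E j) (a j) (k5 j)) (fun s => x s j) ?_ s0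
      funext i
      rw [Finset.sum_apply]
      exact hj i
    rw [← hπ0, hx] at h4
    exact Subtype.ext h4
  have hrel : ∀ s, ∑ i, algebraMap κ' F (α s i) * (D (lv (l' i) y) / lv (l' i) y) = 0 := by
    intro s
    have h1 : ∀ j, ∑ i, ((a j s i : ℤ) : E j) * (η j (lv (l j i) (ξ j)) / lv (l j i) (ξ j)) = 0 := by
      intro j
      have h2 := Pool.Agent.Helper21.TS.log_der Finset.univ (η j) (fun i => lv (l j i) (ξ j)) (k4 j) (a j s)
      have h3 : η j (∏ i, lv (l j i) (ξ j) ^ a j s i) = 0 := by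
        have h4 : (∏ i, lv (l j i) (ξ j) ^ a j s i) = algebraMap (κ j) (E j) ⟨wv (l j) (ξ j) (a j s), k6 j s⟩ := rfl
        rw [h4]
        exact (η j).map_algebraMap _
      rw [h3] at h2
      exact (mul_eq_zero.1 h2.symm).resolve_left (Finset.prod_ne_zero_iff.2 fun i _ => zpow_ne_zero _ (k4 j i))
    have h5 : ∀ i, D (lv (l' i) y) / lv (l' i) y = π fun j => η j (lv (l j i) (ξ j)) / lv (l j i) (ξ j) := by
      intro i
      rw [div_eq_iff (y4 i), hlv, hD, ← map_mul]
      congr 1
      funext j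
      rw [Pi.mul_apply, div_mul_cancel₀ _ (k4 j i)]
    have h6 : ∑ i, algebraMap κ' F (α s i) * (D (lv (l' i) y) / lv (l' i) y) =
        π (∑ i, (fun j => ((a j s i : ℤ) : E j)) * fun j => η j (lv (l j i) (ξ j)) / lv (l j i) (ξ j)) := by
      rw [map_sum]
      refine Finset.sum_congr rfl fun i _ => ?_
      rw [map_mul, ← h5, ← hα]
      rfl
    rw [h6, hπ0]
    refine Filter.Eventually.of_forall fun j => ?_
    rw [Finset.sum_apply]
    exact h1 j
  -- the coordinates
  have hspan : e + 1 ≤ finrank κ' (Submodule.span κ' (Set.range y)) := by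
    obtain ⟨g, hg⟩ := uexists77 U (fun j (g : Fin (e + 1) → Fin (N + 1)) => LinearIndependent (κ j) fun i => ξ j (g i)) k7
    have hind : LinearIndependent κ' (fun i => y (g i)) := by
      rw [Fintype.linearIndependent_iff]
      intro c hc s0
      choose x hx using fun s => hsur (c s : F)
      have f1 : ∀ᶠ j in (U : Filter _), ∀ i, x i j ∈ κ j := by
        rw [Filter.eventually_all]
        intro i
        rw [← hπκ, hx]
        exact (c i).2
      have f2 : ∀ᶠ j in (U : Filter _), ∑ i, x i j * ξ j (g i) = 0 := by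
        have h1 : π (∑ i, x i * fun j => ξ j (g i)) = 0 := by
          rw [map_sum, ← hc]
          refine Finset.sum_congr rfl fun i _ => ?_
          rw [map_mul, hx, ← hy]
          rfl
        rw [hπ0] at h1
        filter_upwards [h1] with j hj
        rw [← hj, Finset.sum_apply]
        rfl
      have f3 : ∀ᶠ j in (U : Filter _), x s0 j = 0 := by
        filter_upwards [f1, f2, hg] with j h1 h2 h3
        have h4 := Fintype.linearIndependent_iff.1 h3 (fun i => ⟨x i j, h1 i⟩) (by
          rw [← h2]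
          rfl) s0
        exact congrArg Subtype.val h4
      rw [← hπ0, hx] at f3
      exact Subtype.ext f3
    have h1 : Fintype.card (Fin (e + 1)) ≤ finrank κ' (Submodule.span κ' (Set.range fun i => y (g i))) := by
      rw [finrank_span_eq_card hind]
    have h2 : finrank κ' (Submodule.span κ' (Set.range fun i => y (g i))) ≤ finrank κ' (Submodule.span κ' (Set.range y)) := by
      have : Module.Finite κ' (Submodule.span κ' (Set.range y)) := FiniteDimensional.span_of_finite κ' (Set.finite_range y)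
      refine Submodule.finrank_mono (Submodule.span_mono ?_)
      rintro _ ⟨i, rfl⟩
      exact ⟨g i, rfl⟩
    rw [Fintype.card_fin] at h1
    exact h1.trans h2
  have hfin := field_form (k₀ := k₀) (M := κ') (F := F) l' hlin' y y1 (trdeg_le_n hX y y1 y3) D hDker y4 α hαli hrel he hspan
  omega

end Pool.Agent.CV
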